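import Pool.Agent.U503.EA.Stm

/-!
# Project EA, package PP: products of two decompositions with equally many maps
-/

set_option autoImplicit false

namespace Pool.Agent.U928.EA.PP

open Finset Function Pool.Agent.TH486.LAC Pool.Agent.Y647.LAC Pool.Agent.U503.VS
open Pool.Agent.U503.EA

theorem t_PP : Pool.Agent.U503.EA.S_PP := by
  intro p a b hp hp5 hb hab M N _ _ ι κ _ _ I J hM hN hcard hI hJ
  have hposa : 0 < p ^ a := pow_pos (by omega) a
  have hposb : 0 < p ^ b := pow_pos (by omega) b
  have : Finite M := Nat.finite_of_card_ne_zero (by rw [hM]; exact hposa.ne')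
  have : Finite N := Nat.finite_of_card_ne_zero (by rw [hN]; exact hposb.ne')
  have := Fintype.ofFinite M
  have := Fintype.ofFinite N
  have hX : Fintype.card M = p ^ a := by rw [← Nat.card_eq_fintype_card, hM]
  have hY : Fintype.card N = p ^ b := by rw [← Nat.card_eq_fintype_card, hN]
  obtain ⟨L₁, hL₁, hT₁, hE₁⟩ := hI
  obtain ⟨L₂, hL₂, hT₂, hE₂⟩ := hJ
  obtain ⟨L, hL, hT, hE, -⟩ := pairs hp hp5 hX hY hb hab L₁ L₂
    (hL₁.trans (hcard.trans hL₂.symm)) hT₁ hT₂
  refine ⟨L, ?_, hT, ?_⟩
  · rw [hL, hL₁, Fintype.card_sum, ← hcard]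
    ring
  · intro v
    rw [hE v, ← Finset.univ_disjSum_univ, Finset.val_disjSum, Multiset.disjSum, Multiset.map_add,
      Multiset.map_map, Multiset.map_map]
    have h1 := congrArg (Multiset.map (fun x : M => (x, v.2))) (hE₁ v.1)
    have h2 := congrArg (Multiset.map (fun x : N => (v.1, x))) (hE₂ v.2)
    rw [Multiset.map_coe, List.map_map, Multiset.map_map] at h1 h2
    have e1 : (L₁.map ((fun x : M => (x, v.2)) ∘ fun κ => κ v.1)) =
      (L₁.map (fun κ => (κ v.1, v.2))) := rfl
    have e2 : (L₂.map ((fun y : N => (v.1, y)) ∘ fun κ => κ v.2)) =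
      (L₂.map (fun κ => (v.1, κ v.2))) := rfl
    rw [e1] at h1
    rw [e2] at h2
    rw [h1, h2]
    congr 2
    · funext i
      simp only [comp_apply, Sum.elim_inl]
      ext
      · simp
      · simp
    · funext i
      simp only [comp_apply, Sum.elim_inr]
      ext
      · simp
      · simp

end Pool.Agent.U928.EA.PP
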